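import Pool.Agent.J6H91.TZ.Stm2

/-!
# Module TZ2-BAS (helper98): a basis of coordinates
-/

set_option autoImplicit false

namespace Pool.Agent.J6H98.TZ

open MvPolynomial Pool.Agent.Helper334_SA Pool.Agent.J6H91.TZ

variable {ι : Type}

/-- the part of `E` outside of the small set given by `F` -/
def cut (E : Set (ι → ℝ)) (F : ι → Set ℝ) : Set (ι → ℝ) := {x | x ∈ E ∧ ∀ j, x j ∉ F j}

lemma sa_cut [Finite ι] {E : Set (ι → ℝ)} (hE : SA E) {F : ι → Set ℝ}
    (hF : ∀ j, (F j).Finite) : SA (cut E F) := by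
  have h1 : SAP (fun x : ι → ℝ => ∀ j, x j ∉ F j) := by
    have h2 : SAP (fun x : ι → ℝ => ∃ j, ∃ c ∈ (hF j).toFinset, x j = c) :=
      SAP.exists_fin fun j => SAP.exists_mem _ fun c _ => SAP.eq (PF.coord j) (PF.const c)
    refine h2.not.congr fun x => ?_
    simp
  exact SA.inter hE h1

/-- the projection to the coordinates in `B` -/
def pr (B : Finset ι) (x : ι → ℝ) : {b // b ∈ B} → ℝ := fun b => x b

/-- the property for which `B` is chosen maximal -/
def Good (E : Set (ι → ℝ)) (B : Finset ι) : Prop :=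
  ∀ F : ι → Set ℝ, (∀ j, (F j).Finite) → (interior (pr B '' cut E F)).Nonempty

lemma good_empty {E : Set (ι → ℝ)} (hE : ¬ Thin E) : Good E ∅ := by
  intro F hF
  have h1 : ∃ x, x ∈ cut E F := by
    by_contra hcon
    push Not at hcon
    refine hE ⟨F, hF, fun x hx => ?_⟩
    by_contra h2
    push Not at h2
    exact hcon x ⟨hx, h2⟩
  obtain ⟨x, hx⟩ := h1
  have h3 : pr ∅ '' cut E F = Set.univ := by
    ext y
    simp only [Set.mem_univ, iff_true]
    exact ⟨x, hx, funext fun b => absurd b.2 (Finset.notMem_empty _)⟩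
  rw [h3, interior_univ]
  exact ⟨pr ∅ x, trivial⟩

/-- the finitely many `w` with `h(·, w) = 0` -/
lemma finite_bad {β : Type} {h : MvPolynomial (Option β) ℝ} (hh : h ≠ 0) :
    {w : ℝ | ∀ u : β → ℝ, ev2 h u w = 0}.Finite := by
  by_contra hinf
  apply hh
  apply MvPolynomial.funext
  intro y
  rw [map_zero]
  let p : Polynomial ℝ :=
    aeval (fun o : Option β => Option.elim o Polynomial.X (fun b => Polynomial.C (y (some b)))) h
  have hp : ∀ w, p.eval w = ev2 h (fun b => y (some b)) w := by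
    intro w
    have h1 : (Polynomial.aeval w) p = aeval (fun o : Option β =>
        (Polynomial.aeval w) (Option.elim o Polynomial.X (fun b => Polynomial.C (y (some b))))) h := by
      show ((Polynomial.aeval w).comp (aeval _)) h = _
      rw [MvPolynomial.comp_aeval]
    rw [← Polynomial.coe_aeval_eq_eval, h1, MvPolynomial.aeval_eq_eval]
    unfold ev2
    congr 2
    funext o
    cases o <;> simp
  have hp0 : p = 0 := by
    apply Polynomial.eq_zero_of_infinite_isRoot
    refine Set.Infinite.mono ?_ hinf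
    intro w hw
    show p.eval w = 0
    rw [hp]
    exact hw _
  have h2 := hp (y none)
  rw [hp0, Polynomial.eval_zero] at h2
  have h3 : (fun o : Option β => Option.elim o (y none) (fun b => y (some b))) = y := by
    funext o
    cases o <;> rfl
  unfold ev2 at h2
  rw [h3] at h2
  exact h2.symm

/-- the polynomials `h_j` for a maximal `B` -/
lemma exists_poly [Fintype ι] [DecidableEq ι] (hI : S_INT) (hP : S_PRJ) {E : Set (ι → ℝ)}
    (hE : SA E) {B : Finset ι} {j : ι} (hj : ¬ Good E (insert j B)) :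
    ∃ (F : ι → Set ℝ) (h : MvPolynomial (Option {b // b ∈ B}) ℝ), (∀ i, (F i).Finite) ∧ h ≠ 0 ∧
      ∀ x ∈ cut E F, ev2 h (fun b => x b) (x j) = 0 := by
  unfold Good at hj
  push Not at hj
  obtain ⟨F, hF, hF2⟩ := hj
  let e : Option {b // b ∈ B} → ι := fun o => Option.elim o j (fun b => b.1)
  have he : ∀ o, e o ∈ insert j B := by
    intro o
    cases o with
    | none => exact Finset.mem_insert_self _ _
    | some b => exact Finset.mem_insert_of_mem b.2
  have hSA : SA ((fun x : ι → ℝ => x ∘ e) '' cut E F) := hP _ _ e _ (sa_cut hE hF)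
  have hint : interior ((fun x : ι → ℝ => x ∘ e) '' cut E F) = ∅ := by
    by_contra hne
    obtain ⟨y, hy⟩ := Set.nonempty_iff_ne_empty.2 hne
    let ψ : Option {b // b ∈ B} → {b // b ∈ insert j B} := fun o => ⟨e o, he o⟩
    have hψ : ∀ b : {b // b ∈ insert j B}, ∃ o, ψ o = b := by
      rintro ⟨b, hb⟩
      rcases Finset.mem_insert.1 hb with rfl | hb'
      · exact ⟨none, rfl⟩
      · exact ⟨some ⟨b, hb'⟩, rfl⟩
    have hcont : Continuous (fun z : {b // b ∈ insert j B} → ℝ => z ∘ ψ) := by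
      fun_prop
    have hopen : IsOpen ((fun z : {b // b ∈ insert j B} → ℝ => z ∘ ψ) ⁻¹'
        interior ((fun x : ι → ℝ => x ∘ e) '' cut E F)) := isOpen_interior.preimage hcont
    have hsub : ((fun z : {b // b ∈ insert j B} → ℝ => z ∘ ψ) ⁻¹'
        interior ((fun x : ι → ℝ => x ∘ e) '' cut E F)) ⊆ pr (insert j B) '' cut E F := by
      intro z hz
      obtain ⟨x, hx, hxz⟩ := interior_subset hz
      refine ⟨x, hx, funext fun b => ?_⟩
      obtain ⟨o, rfl⟩ := hψ b
      exact congrFun hxz o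
    have hsub2 := interior_maximal hsub hopen
    obtain ⟨x, hx, hxy⟩ := interior_subset hy
    have hmem : pr (insert j B) x ∈ interior (pr (insert j B) '' cut E F) := by
      apply hsub2
      show (pr (insert j B) x) ∘ ψ ∈ interior ((fun x : ι → ℝ => x ∘ e) '' cut E F)
      have : (pr (insert j B) x) ∘ ψ = y := by
        rw [← hxy]
        rfl
      rw [this]
      exact hy
    rw [hF2] at hmem
    exact hmem
  obtain ⟨h, hh, hh2⟩ := hI _ _ hSA hint
  refine ⟨F, h, hF, hh, fun x hx => ?_⟩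
  have h1 := hh2 _ ⟨x, hx, rfl⟩
  have h2 : (fun o : Option {b // b ∈ B} => Option.elim o (x j) (fun b => x b)) = x ∘ e := by
    funext o
    cases o <;> rfl
  unfold ev2
  rw [h2]
  exact h1

theorem bas : S_BAS := by
  intro hI hP ι _ _ E hE hthin
  obtain ⟨B, -, hB⟩ := (Set.toFinite {B : Finset ι | Good E B}).exists_le_maximal (good_empty hthin)
  have hgood : Good E B := hB.prop
  have hmax : ∀ j, j ∉ B → ¬ Good E (insert j B) := by
    intro j hj hg
    exact hj (hB.le_of_ge hg (Finset.subset_insert j B) (Finset.mem_insert_self j B))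
  have hex : ∀ j, ∃ (F : ι → Set ℝ) (h : MvPolynomial (Option {b // b ∈ B}) ℝ),
      (∀ i, (F i).Finite) ∧ (j ∉ B → h ≠ 0 ∧ ∀ x ∈ cut E F, ev2 h (fun b => x b) (x j) = 0) := by
    intro j
    by_cases hj : j ∈ B
    · exact ⟨fun _ => ∅, 0, fun _ => Set.finite_empty, fun h => absurd hj h⟩
    · obtain ⟨F, h, h1, h2, h3⟩ := exists_poly hI hP hE (hmax j hj)
      exact ⟨F, h, h1, fun _ => ⟨h2, h3⟩⟩
  choose F h hF hh using hex
  let W : ι → Set ℝ := fun j => {w | j ∉ B ∧ ∀ u : {b // b ∈ B} → ℝ, ev2 (h j) u w = 0}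
  have hW : ∀ j, (W j).Finite := by
    intro j
    by_cases hj : j ∈ B
    · refine Set.finite_empty.subset fun w hw => absurd hj hw.1
    · exact (finite_bad (hh j hj).1).subset fun w hw => hw.2
  let F' : ι → Set ℝ := fun i => (⋃ j, F j i) ∪ W i
  have hF' : ∀ i, (F' i).Finite := fun i => (Set.finite_iUnion fun j => hF j i).union (hW i)
  refine ⟨B, cut E F', interior (pr B '' cut E F'), h, fun x hx => hx.1, isOpen_interior,
    hgood F' hF', ?_, ?_⟩
  · intro u hu
    obtain ⟨x, hx, hxu⟩ := interior_subset hu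
    exact ⟨x, hx, fun b => congrFun hxu b⟩
  · intro x hx j hj
    refine ⟨(hh j hj).2 x ⟨hx.1, fun i hi => hx.2 i (Or.inl (Set.mem_iUnion.2 ⟨j, hi⟩))⟩, ?_⟩
    by_contra hcon
    push Not at hcon
    exact hx.2 j (Or.inr ⟨hj, hcon⟩)

end Pool.Agent.J6H98.TZ
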